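import Pool.Agent.Q287.LD9

/-!
# Leaf density in fitness recursive trees with infinite Malthusian parameter (MP_de6572_pr)

The assertion of Q1 is false.  Already with a single type of vertices (`μ` a point mass, so that the
fitness is a function of the degree alone) and `ℓ = 1` there is a positive attachment function with
`m(λ) = ∞` for every `λ > 0` for which, with positive probability, the proportion of leaves does not
converge to `1`.

The model is defined in `Pool/Agent/Q287/LD8.lean`:
* `outDeg ℓ Q t v ω`: the out-degree of the vertex `v` in `T_t`, where `Q s ω` is the vertex chosen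
  at the step `s`, whose new children are `ℓ s + 1, …, ℓ s + ℓ`;
* `totalFit f ℓ W Q t ω`: the total fitness `Z_t`;
* `past W Q n t`: the σ-algebra generated by `W 0, …, W (n - 1)` and `Q 0, …, Q (t - 1)`;
* `IsRecTree μ f ℓ P W Q`: `(W, Q)` is a `(μ, f, ℓ)`-recursive tree with independent fitnesses;
* `numDeg ℓ W Q k t B ω`: the number `N_k(t, B)`;
* `mMal μ f ℓ lam`, `malthus μ f ℓ`: the quantities `m(λ)` and `α`.
-/

open MeasureTheory ProbabilityTheory Filter
open scoped NNReal ENNReal Topology

universe u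

namespace Pool.Agent.Results.MP_de6572_pr.LeafDensity

open Pool.Agent.Q287.LD

/-- There are a probability measure `μ` on `[0, ∞)`, a measurable fitness function `f` with
`f(0, w) > 0` for `μ`-almost every `w`, an integer `ℓ ≥ 1` and a Borel set `B` such that `α = ∞`, the
`(μ, f, ℓ)`-recursive tree exists, and, for every realization of the tree, `N_0(t, B) / (ℓ t)` fails
to converge to `μ(B)` with positive probability. -/
theorem result :
    ∃ (μ : Measure ℝ≥0) (f : ℕ → ℝ≥0 → ℝ≥0) (ℓ : ℕ) (B : Set ℝ≥0),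
      IsProbabilityMeasure μ ∧ (∀ k, Measurable (f k)) ∧ 1 ≤ ℓ ∧ (∀ᵐ w ∂μ, 0 < f 0 w) ∧
      malthus μ f ℓ = ⊤ ∧ MeasurableSet B ∧
      (∃ (Ω : Type) (_ : MeasurableSpace Ω) (P : Measure Ω) (_ : IsProbabilityMeasure P)
        (W : ℕ → Ω → ℝ≥0) (Q : ℕ → Ω → ℕ), IsRecTree μ f ℓ P W Q) ∧
      (∀ (Ω : Type u) (_ : MeasurableSpace Ω) (P : Measure Ω) (_ : IsProbabilityMeasure P)
        (W : ℕ → Ω → ℝ≥0) (Q : ℕ → Ω → ℕ), IsRecTree μ f ℓ P W Q →
        0 < P {ω | ¬ Tendsto (fun t : ℕ => (numDeg ℓ W Q 0 t B ω : ℝ) / ((ℓ : ℝ) * t)) atTop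
          (𝓝 (μ B).toReal)}) := by
  refine ⟨Measure.dirac 0, f0, 1, Set.univ, inferInstance, fun k => measurable_const, le_rfl, ?_,
    malthus_top, MeasurableSet.univ, ⟨ℕ → ℕ, inferInstance, PP, inferInstance, WW, QQ,
    exists_tree⟩, ?_⟩
  · refine Eventually.of_forall fun w => ?_
    exact ff_pos 0
  · intro Ω _ P _ W Q h
    have h1 := prob_pos h
    simpa using h1

end Pool.Agent.Results.MP_de6572_pr.LeafDensity
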